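import Pool.Agent.Lib.MP_144d21_co.X4.Iface2

/-!
# Module CRI0 (helper2): critical subgraphs, any number of colours at least 2
-/

set_option autoImplicit false

namespace Pool.Agent.Xu.X4.H2

open Finset Polynomial

variable {V : Type} [Fintype V] [DecidableEq V]

/-- no separator of order 0 or 1 in a minimal non-colourable graph -/
theorem no_sep0 (hGlue : GlueS) {G : SimpleGraph V} {S S1 S2 : Finset V} {k : ℕ}
    (hS : cols G S k = ∅) (hU : S1 ∪ S2 = S) (hI : (S1 ∩ S2).card ≤ 1) (hSep : Sep G S1 S2)
    (h1 : (cols G S1 k).Nonempty) (h2 : (cols G S2 k).Nonempty) : False := by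
  have hc : ∀ x ∈ S1 ∩ S2, ∀ y ∈ S1 ∩ S2, x ≠ y → G.Adj x y := by
    intro x hx y hy hxy
    exact absurd (Finset.card_le_one.1 hI x hx y hy) hxy
  have h3 := hGlue V G S1 S2 hSep hc k
  rw [hU, hS, Finset.card_empty, mul_zero] at h3
  have h4 : 0 < (cols G S1 k).card * (cols G S2 k).card :=
    Nat.mul_pos (Finset.card_pos.2 h1) (Finset.card_pos.2 h2)
  omega

/-- CRI0 -/
theorem cri0 (hColm : ColmS) (hGlue : GlueS) : Cri0S := by
  classical
  intro V _ _ G S k hk hS
  -- a smallest non-colourable subset
  obtain ⟨S', hS'mem, hmin⟩ := Finset.exists_min_image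
    (S.powerset.filter fun T => cols G T k = ∅) Finset.card
    ⟨S, by rw [mem_filter, mem_powerset]; exact ⟨Finset.Subset.refl _, hS⟩⟩
  rw [mem_filter, mem_powerset] at hS'mem
  obtain ⟨hS'S, hS'e⟩ := hS'mem
  have hlt : ∀ T ⊆ S', T ≠ S' → (cols G T k).Nonempty := by
    intro T hT hne
    by_contra hcon
    rw [Finset.not_nonempty_iff_eq_empty] at hcon
    have h1 := hmin T (by rw [mem_filter, mem_powerset]; exact ⟨hT.trans hS'S, hcon⟩)
    exact hne (Finset.eq_of_subset_of_card_le hT h1)
  obtain ⟨-, -, hsmall, hdeg, hpairs⟩ := hColm V G S' k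
  have hnot : ¬ (cols G S' k).Nonempty := by
    rw [hS'e]; exact Finset.not_nonempty_empty
  have hcard : k + 1 ≤ S'.card := by
    by_contra hcon
    exact hnot (hsmall (by omega))
  have hd : ∀ v ∈ S', k ≤ (nb G S' v).card := by
    intro v hv
    by_contra hcon
    push Not at hcon
    refine hnot (hdeg v hv hcon (hlt _ (Finset.erase_subset _ _) ?_))
    intro h
    exact (Finset.notMem_erase v S') (h.symm ▸ hv)
  have hconn : Conn G S' := by
    refine ⟨Finset.card_pos.1 (by omega), fun A hA hAn hAs => ?_⟩
    by_contra hcon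
    push Not at hcon
    have hU : A ∪ (S' \ A) = S' := Finset.union_sdiff_of_subset hA
    have hI : A ∩ (S' \ A) = ∅ := Finset.inter_sdiff_self _ _
    refine no_sep0 hGlue hS'e hU (by rw [hI, Finset.card_empty]; omega) ?_ (hlt A hA hAs)
      (hlt _ Finset.sdiff_subset ?_)
    · intro a ha _ b hb hbA hab
      exact hcon a ha b (Finset.mem_sdiff.1 hb).1 hbA hab
    · intro h
      obtain ⟨a, ha⟩ := hAn
      have : a ∈ S' \ A := h.symm ▸ hA ha
      exact (Finset.mem_sdiff.1 this).2 ha
  have htwo : TwoConn G S' := by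
    refine ⟨by omega, hconn, fun v hv => ?_⟩
    refine ⟨?_, fun A hA hAn hAs => ?_⟩
    · rw [← Finset.card_pos, Finset.card_erase_of_mem hv]
      omega
    · by_contra hcon
      push Not at hcon
      have hvA : v ∉ A := fun h => Finset.notMem_erase v S' (hA h)
      have hAS : A ⊆ S' := hA.trans (Finset.erase_subset _ _)
      have hU : insert v A ∪ (S' \ A) = S' := by
        ext x
        simp only [mem_union, mem_insert, mem_sdiff]
        constructor
        · rintro ((rfl | h) | h)
          · exact hv
          · exact hAS h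
          · exact h.1
        · intro h
          by_cases hx : x ∈ A
          · exact Or.inl (Or.inr hx)
          · exact Or.inr ⟨h, hx⟩
      have hI : insert v A ∩ (S' \ A) = {v} := by
        ext x
        simp only [mem_inter, mem_insert, mem_sdiff, mem_singleton]
        constructor
        · rintro ⟨rfl | h, h2⟩
          · rfl
          · exact absurd h h2.2
        · rintro rfl
          exact ⟨Or.inl rfl, hv, hvA⟩
      refine no_sep0 hGlue hS'e hU (by rw [hI, Finset.card_singleton]) ?_
        (hlt _ (by rw [← hU]; exact Finset.subset_union_left) ?_)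
        (hlt _ Finset.sdiff_subset ?_)
      · intro x hx hx2 y hy hy2
        have hxA : x ∈ A := by
          rcases Finset.mem_insert.1 hx with rfl | h
          · exact absurd (Finset.mem_sdiff.2 ⟨hv, hvA⟩) hx2
          · exact h
        have hyv : y ≠ v := fun h => hy2 (by rw [h]; exact Finset.mem_insert_self _ _)
        have hyA : y ∉ A := fun h => hy2 (Finset.mem_insert_of_mem h)
        exact hcon x hxA y (Finset.mem_erase.2 ⟨hyv, (Finset.mem_sdiff.1 hy).1⟩) hyA
      · intro h
        apply hAs
        rw [← h, Finset.erase_insert hvA]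
      · intro h
        obtain ⟨a, ha⟩ := hAn
        have : a ∈ S' \ A := h.symm ▸ hAS ha
        exact (Finset.mem_sdiff.1 this).2 ha
  exact ⟨S', hS'S, hS'e, htwo, hcard, hd⟩

end Pool.Agent.Xu.X4.H2
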