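import Pool.Agent.Lib.MP_144d21_co.X4.Iface

/-!
# Module CRIT (helper2): critical subgraphs
-/

set_option autoImplicit false

namespace Pool.Agent.Xu.X4.H2

open Finset Polynomial

variable {V : Type} [Fintype V] [DecidableEq V]

/-- no separator of order 0 or 1 in a minimal non-colourable graph -/
theorem no_sep (hGlue : GlueS) {G : SimpleGraph V} {S S1 S2 : Finset V} {k : ℕ} (hk : 3 ≤ k)
    (hS : cols G S k = ∅) (hU : S1 ∪ S2 = S) (hI : (S1 ∩ S2).card ≤ 1) (hSep : Sep G S1 S2)
    (h1 : (cols G S1 k).Nonempty) (h2 : (cols G S2 k).Nonempty) : False := by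
  have hc : ∀ x ∈ S1 ∩ S2, ∀ y ∈ S1 ∩ S2, x ≠ y → G.Adj x y := by
    intro x hx y hy hxy
    exact absurd (Finset.card_le_one.1 hI x hx y hy) hxy
  have h3 := hGlue V G S1 S2 hSep hc k
  rw [hU, hS, Finset.card_empty, mul_zero] at h3
  have h4 : 0 < (cols G S1 k).card * (cols G S2 k).card :=
    Nat.mul_pos (Finset.card_pos.2 h1) (Finset.card_pos.2 h2)
  omega

/-- the number of non-neighbours -/
theorem nonnb_card {G : SimpleGraph V} {S : Finset V} {v : V} :
    (nb G S v).card + (S \ nb G S v).card = S.card := by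
  have h : nb G S v ⊆ S := fun x hx => (mem_nb.1 hx).1
  rw [Finset.card_sdiff_of_subset h]
  have := Finset.card_le_card h
  omega

/-- two non-neighbours in a set of at most `k + 2` vertices with degree at least `k` agree -/
theorem nonnb_unique {G : SimpleGraph V} {S : Finset V} {k : ℕ} {v a b : V}
    (hd : k ≤ (nb G S v).card) (hc : S.card ≤ k + 2) (hv : v ∈ S) (ha : a ∈ S) (hb : b ∈ S)
    (hva : v ≠ a) (hvb : v ≠ b) (h1 : ¬ G.Adj v a) (h2 : ¬ G.Adj v b) : a = b := by
  by_contra hab
  have h3 : ({v, a, b} : Finset V) ⊆ S \ nb G S v := by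
    intro x hx
    simp only [mem_insert, mem_singleton] at hx
    rw [mem_sdiff, mem_nb]
    rcases hx with rfl | rfl | rfl
    · exact ⟨hv, fun h => h.2.ne rfl⟩
    · exact ⟨ha, fun h => h1 h.2⟩
    · exact ⟨hb, fun h => h2 h.2⟩
  have h4 := Finset.card_le_card h3
  have h5 : ({v, a, b} : Finset V).card = 3 := Finset.card_eq_three.2 ⟨v, a, b, hva, hvb, hab, rfl⟩
  have h6 := nonnb_card (G := G) (S := S) (v := v)
  omega

/-- CRIT -/
theorem crit (hColm : ColmS) (hGlue : GlueS) : CritS := by
  classical
  intro V _ _ G S k hk hS hQ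
  -- a smallest non-colourable subset
  obtain ⟨S', hS'mem, hmin⟩ := Finset.exists_min_image
    (S.powerset.filter fun T => cols G T k = ∅) Finset.card
    ⟨S, by rw [mem_filter, mem_powerset]; exact ⟨Finset.Subset.refl _, hS⟩⟩
  rw [mem_filter, mem_powerset] at hS'mem
  obtain ⟨hS'S, hS'e⟩ := hS'mem
  have hlt : ∀ T ⊆ S', T ≠ S' → (cols G T k).Nonempty := by
    intro T hT hne
    by_contra hcon
    rw [Finset.not_nonempty_iff_eq_empty] at hcon
    have h1 := hmin T (by rw [mem_filter, mem_powerset]; exact ⟨hT.trans hS'S, hcon⟩)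
    exact hne (Finset.eq_of_subset_of_card_le hT h1)
  obtain ⟨-, -, hsmall, hdeg, hpairs⟩ := hColm V G S' k
  have hnot : ¬ (cols G S' k).Nonempty := by
    rw [hS'e]; exact Finset.not_nonempty_empty
  have hcard : k + 1 ≤ S'.card := by
    by_contra hcon
    exact hnot (hsmall (by omega))
  have hd : ∀ v ∈ S', k ≤ (nb G S' v).card := by
    intro v hv
    by_contra hcon
    push Not at hcon
    refine hnot (hdeg v hv hcon (hlt _ (Finset.erase_subset _ _) ?_))
    intro h
    exact (Finset.notMem_erase v S') (h.symm ▸ hv)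
  have hconn : Conn G S' := by
    refine ⟨Finset.card_pos.1 (by omega), fun A hA hAn hAs => ?_⟩
    by_contra hcon
    push Not at hcon
    have hU : A ∪ (S' \ A) = S' := Finset.union_sdiff_of_subset hA
    have hI : A ∩ (S' \ A) = ∅ := Finset.inter_sdiff_self _ _
    refine no_sep hGlue hk hS'e hU (by rw [hI, Finset.card_empty]; omega) ?_ (hlt A hA hAs)
      (hlt _ Finset.sdiff_subset ?_)
    · intro a ha _ b hb hbA hab
      exact hcon a ha b (Finset.mem_sdiff.1 hb).1 hbA hab
    · intro h
      obtain ⟨a, ha⟩ := hAn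
      have : a ∈ S' \ A := h.symm ▸ hA ha
      exact (Finset.mem_sdiff.1 this).2 ha
  have htwo : TwoConn G S' := by
    refine ⟨by omega, hconn, fun v hv => ?_⟩
    refine ⟨?_, fun A hA hAn hAs => ?_⟩
    · rw [← Finset.card_pos, Finset.card_erase_of_mem hv]
      omega
    · by_contra hcon
      push Not at hcon
      have hvA : v ∉ A := fun h => Finset.notMem_erase v S' (hA h)
      have hAS : A ⊆ S' := hA.trans (Finset.erase_subset _ _)
      have hU : insert v A ∪ (S' \ A) = S' := by
        ext x
        simp only [mem_union, mem_insert, mem_sdiff]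
        constructor
        · rintro ((rfl | h) | h)
          · exact hv
          · exact hAS h
          · exact h.1
        · intro h
          by_cases hx : x ∈ A
          · exact Or.inl (Or.inr hx)
          · exact Or.inr ⟨h, hx⟩
      have hI : insert v A ∩ (S' \ A) = {v} := by
        ext x
        simp only [mem_inter, mem_insert, mem_sdiff, mem_singleton]
        constructor
        · rintro ⟨rfl | h, h2⟩
          · rfl
          · exact absurd h h2.2
        · rintro rfl
          exact ⟨Or.inl rfl, hv, hvA⟩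
      refine no_sep hGlue hk hS'e hU (by rw [hI, Finset.card_singleton]) ?_
        (hlt _ (by rw [← hU]; exact Finset.subset_union_left) ?_)
        (hlt _ Finset.sdiff_subset ?_)
      · intro x hx hx2 y hy hy2
        have hxA : x ∈ A := by
          rcases Finset.mem_insert.1 hx with rfl | h
          · exact absurd (Finset.mem_sdiff.2 ⟨hv, hvA⟩) hx2
          · exact h
        have hyv : y ≠ v := fun h => hy2 (by rw [h]; exact Finset.mem_insert_self _ _)
        have hyA : y ∉ A := fun h => hy2 (Finset.mem_insert_of_mem h)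
        exact hcon x hxA y (Finset.mem_erase.2 ⟨hyv, (Finset.mem_sdiff.1 hy).1⟩) hyA
      · intro h
        apply hAs
        rw [← h, Finset.erase_insert hvA]
      · intro h
        obtain ⟨a, ha⟩ := hAn
        have : a ∈ S' \ A := h.symm ▸ hAS ha
        exact (Finset.mem_sdiff.1 this).2 ha
  refine ⟨S', hS'S, hS'e, htwo, ?_, hd⟩
  by_contra hcon
  push Not at hcon
  have hc2 : S'.card ≤ k + 2 := by omega
  -- non-adjacent pairs
  by_cases hcl : Clq G S'
  · have := hQ S' hS'S hcl
    omega
  · unfold Clq at hcl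
    push Not at hcl
    obtain ⟨a, ha, b, hb, hab, hnab⟩ := hcl
    -- the only non-edge is `ab`: remove `a`
    have hcl2 : Clq G (S'.erase a) := by
      intro x hx y hy hxy
      by_contra hnxy
      have hx' := Finset.mem_erase.1 hx
      have hy' := Finset.mem_erase.1 hy
      by_cases hxb : x = b
      · subst hxb
        exact hy'.1 (nonnb_unique (hd x hx'.2) hc2 hx'.2 hy'.2 ha hxy (Ne.symm hab) hnxy
          (fun h => hnab h.symm))
      by_cases hyb : y = b
      · subst hyb
        exact hx'.1 (nonnb_unique (hd y hy'.2) hc2 hy'.2 hx'.2 ha (Ne.symm hxy) (Ne.symm hab)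
          (fun h => hnxy h.symm) (fun h => hnab h.symm))
      exact hnot (hpairs a ha b hb x hx'.2 y hy'.2 hab hxy (Ne.symm hx'.1) (Ne.symm hy'.1)
        (Ne.symm hxb) (Ne.symm hyb) hnab hnxy hc2)
    have h1 := hQ (S'.erase a) ((Finset.erase_subset _ _).trans hS'S) hcl2
    rw [Finset.card_erase_of_mem ha] at h1
    have h2 : S'.card = k + 1 := by omega
    -- degree of `a` is at least `k`, but `a`, `b` are non-neighbours
    have h3 : ({a, b} : Finset V) ⊆ S' \ nb G S' a := by
      intro x hx
      simp only [mem_insert, mem_singleton] at hx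
      rw [mem_sdiff, mem_nb]
      rcases hx with rfl | rfl
      · exact ⟨ha, fun h => h.2.ne rfl⟩
      · exact ⟨hb, fun h => hnab h.2⟩
    have h4 := Finset.card_le_card h3
    rw [Finset.card_pair hab] at h4
    have h5 := nonnb_card (G := G) (S := S') (v := a)
    have h6 := hd a ha
    omega

end Pool.Agent.Xu.X4.H2
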